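import Pool.Agent.H17.T1.MkE

/-!
# T1: MINKI (short vectors in self-dual lattices)
-/

set_option autoImplicit false

namespace Pool.T1

open Polynomial Matrix Pool.HYP Pool.TOW Pool.AVS IsDedekindDomain

/-- MINKI. -/
theorem minki (hGRI : GRIStmt) : MINKIStmt := by
  intro F _ _ h2 K _ _ _ _ O hO π hπ
  have hGR := ((hGRI F h2 K O hO).2 π hπ).1
  set τ := algebraMap (RatFunc F) K RatFunc.X with hτ
  have hτ0 : τ ≠ 0 := by
    simpa [hτ] using RatFunc.X_ne_zero
  obtain ⟨n, h3, h4⟩ := hGR.val τ hτ0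
  have hn : n ≤ 0 := by
    by_contra hcon
    push Not at hcon
    apply hO.1
    have h5 : τ = τ / π ^ n * π ^ n := (div_mul_cancel₀ _ (zpow_ne_zero _ hπ.1)).symm
    rw [← hτ, h5]
    obtain ⟨z, hz⟩ := Int.eq_ofNat_of_zero_le hcon.le
    refine mul_mem h3 ?_
    rw [hz, zpow_natCast]
    exact pow_mem hπ.2.1 _
  refine MKI.mink O hO π hπ.1 hπ.2.1 (-n) (by omega) ?_ ?_
  · rw [_root_.zpow_neg, ← div_eq_mul_inv]
    exact h3
  · rw [_root_.zpow_neg, ← div_eq_mul_inv]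
    exact h4

end Pool.T1
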