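import Pool.Agent.H94.T1.S6

/-!
# T1: SNPK (a singular point gives a common root)
-/

set_option autoImplicit false

namespace Pool.T1

open Polynomial Matrix Pool.HYP Pool.TOW Pool.AVS IsDedekindDomain

namespace SNPaux

theorem delta_sq {R : Type} [CommRing R] (Δ : Derivation ℤ R R) (P : Ideal R) (x : R)
    (hx : x ∈ P ^ 2) : Δ x ∈ P := by
  rw [pow_two] at hx
  refine Submodule.mul_induction_on hx ?_ ?_
  · intro a ha b hb
    rw [Derivation.leibniz, smul_eq_mul, smul_eq_mul]
    exact add_mem (P.mul_mem_right _ ha) (P.mul_mem_right _ hb)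
  · intro a b ha hb
    rw [map_add]
    exact add_mem ha hb

end SNPaux

/-- SNPK. -/
theorem snpk (hDDK : DDKStmt) : SNPKStmt := by
  intro R _ Δ Ω _ _ φ P hker f hf
  obtain ⟨hco, hadd, hmul, hC⟩ := hDDK R Δ
  obtain ⟨γ, a, b, c, hγ, hirr, hb, hc, rfl⟩ := hf
  have hmem : ∀ x : R, x ∈ P → φ x = 0 := by
    intro x hx
    rw [← hker] at hx
    exact hx
  have hcP : ∀ i, c.coeff i ∈ P := fun i => Ideal.pow_le_self two_ne_zero (hc i)
  have hzer : ∀ q : R[X], (∀ i, q.coeff i ∈ P) → q.map φ = 0 := by
    intro q hq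
    ext i
    rw [Polynomial.coeff_map, Polynomial.coeff_zero]
    exact hmem _ (hq i)
  have hbφ : b.map φ = 0 := hzer b hb
  have hcφ : c.map φ = 0 := hzer c hcP
  have hc'φ : (derivative c).map φ = 0 := by
    rw [← Polynomial.derivative_map, hcφ, Polynomial.derivative_zero]
  have hΔcφ : (dD Δ c).map φ = 0 := hzer _ fun i => by
    rw [hco]
    exact SNPaux.delta_sq Δ P _ (hc i)
  -- a root
  have hdeg : (γ.map φ).degree ≠ 0 := by
    rw [hγ.degree_map]
    intro h0
    have h1 : γ = 1 := by
      apply Polynomial.eq_one_of_monic_natDegree_zero hγ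
      exact Polynomial.natDegree_eq_of_degree_eq_some h0
    rw [h1] at hirr
    exact hirr.not_isUnit (by rw [md, Polynomial.map_one]; exact isUnit_one)
  obtain ⟨ξ, hξ⟩ := IsAlgClosed.exists_root (γ.map φ) hdeg
  have hξ' : (γ.map φ).eval ξ = 0 := hξ
  refine ⟨ξ, ?_, ?_, ?_⟩
  · simp only [Polynomial.map_add, Polynomial.map_mul, Polynomial.map_pow, Polynomial.eval_add,
      Polynomial.eval_mul, Polynomial.eval_pow, hξ', hcφ, Polynomial.eval_zero]
    ring
  · have hd : derivative (γ ^ 2 * a + γ * b + c) = γ * (2 * derivative γ * a + γ * derivative a) +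
        derivative γ * b + γ * derivative b + derivative c := by
      simp only [Polynomial.derivative_add, Polynomial.derivative_mul, Polynomial.derivative_pow,
        Nat.cast_ofNat, map_ofNat]
      ring
    rw [hd]
    simp only [Polynomial.map_add, Polynomial.map_mul, Polynomial.eval_add,
      Polynomial.eval_mul, hξ', hc'φ, hbφ, Polynomial.eval_zero]
    ring
  · have hd : dD Δ (γ ^ 2 * a + γ * b + c) = γ * (2 * dD Δ γ * a + γ * dD Δ a) +
        dD Δ γ * b + γ * dD Δ b + dD Δ c := by
      rw [hadd, hadd, hmul, hmul, pow_two, hmul]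
      ring
    rw [hd]
    simp only [Polynomial.map_add, Polynomial.map_mul, Polynomial.eval_add,
      Polynomial.eval_mul, hξ', hΔcφ, hbφ, Polynomial.eval_zero]
    ring

end Pool.T1
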