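import Pool.Agent.H14.T1.S3
import Pool.Agent.H30.T1.LOCK
import Pool.Agent.H6.HYP.SQI

/-!
# T1: USG (the form of the class of a unit has a self-dual lattice)
-/

set_option autoImplicit false

namespace Pool.T1

open Polynomial Matrix Pool.HYP Pool.TOW Pool.AVS IsDedekindDomain

/-- USG. -/
theorem usg : USGStmt := by
  intro R _ _ K _ _ _ P n f α hf hn hα hUS
  obtain ⟨s, p, hs, hdvd, hcop⟩ := hUS
  have hfk : (fk K f).Monic := hf.map _
  have hnk : (fk K f).natDegree = n := by rw [hf.natDegree_map, hn]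
  have hdvd' : fk K f ∣ fk K p - α * s ^ 2 := (dvd_sub_comm).mp hdvd
  obtain ⟨a, ha, h0, -⟩ := Pool.HYP.sqi K n (fk K f) α (fk K p) s hfk hnk hs hdvd'
  refine ⟨a, ha, ?_⟩
  rw [← h0]
  have hdet : (gr 0 n f p).det ∉ P.asIdeal := by
    have h3 := (lock R K P n f p hf hn hcop).1
    exact h3
  have hmap : gr 0 n (fk K f) (fk K p) = (gr 0 n f p).map (algebraMap R K) :=
    (gr_map (algebraMap R K) hf 0 n p).symm
  rw [hmap]
  have hdetm : ((gr 0 n f p).map (algebraMap R K)).det = algebraMap R K (gr 0 n f p).det := by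
    rw [RingHom.map_det]
    rfl
  refine ⟨fun i j => rp_alg _, ?_, ?_, ?_⟩
  · rw [hdetm]
    have : (gr 0 n f p).det ≠ 0 := fun h => hdet (by rw [h]; exact zero_mem _)
    exact alg_ne this
  · rw [hdetm]
    exact rp_alg _
  · rw [hdetm]
    exact rp_inv hdet

end Pool.T1
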