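import Pool.Agent.H29.T1.Conc
import Pool.Agent.H52.HYP.BIRN

/-!
# T1: MINKI, part B: the place at infinity
-/

set_option autoImplicit false

namespace Pool.T1.MKI

open Polynomial Matrix Module Pool.AVR Pool.AVS Pool.HYP

open Classical in
/-- The valuation ring of `F(t)` at infinity. -/
noncomputable abbrev VI (F : Type) [Field F] : ValuationSubring (RatFunc F) :=
  (RatFunc.inftyValuation F).valuationSubring

theorem mem_VI {F : Type} [Field F] (x : RatFunc F) : x ∈ VI F ↔ x ∈ OInf F := by
  classical
  rw [VI, Valuation.mem_valuationSubring_iff]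
  by_cases hx : x = 0
  · subst hx
    simp
  · rw [RatFunc.inftyValuation_apply, RatFunc.inftyValuation_of_nonzero F hx]
    rw [BIRN2.mem_OInf]
    rw [← WithZero.exp_zero, WithZero.exp_le_exp]

instance dvrVI (F : Type) [Field F] : IsDiscreteValuationRing (VI F) := by
  classical
  have : IsCyclic (MonoidWithZeroHom.valueGroup (.ofClass (RatFunc.inftyValuation F))) :=
    inferInstance
  have : Nontrivial (MonoidWithZeroHom.valueGroup (.ofClass (RatFunc.inftyValuation F))) :=
    inferInstance
  exact Valuation.valuationSubring_isDiscreteValuationRing _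

section Inf

variable {F : Type} [Field F] {K : Type} [Field K] [Algebra (RatFunc F) K]

theorem const_mem [Finite F] (V : ValuationSubring K) (c : F) :
    algebraMap (RatFunc F) K (RatFunc.C c) ∈ V := by
  by_cases hc : c = 0
  · subst hc
    simp
  have := Fintype.ofFinite F
  have h1 : c ^ (Fintype.card F - 1) = 1 := FiniteField.pow_card_sub_one_eq_one c hc
  have h2 : (algebraMap (RatFunc F) K (RatFunc.C c)) ^ (Fintype.card F - 1) = 1 := by
    rw [← map_pow, ← map_pow, h1, map_one, map_one]
  have hpos : 0 < Fintype.card F - 1 := by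
    have := Fintype.one_lt_card (α := F)
    omega
  rw [← V.valuation_le_one_iff]
  have h3 : V.valuation (algebraMap (RatFunc F) K (RatFunc.C c)) ^ (Fintype.card F - 1) = 1 := by
    rw [← map_pow, h2, map_one]
  exact (pow_le_one_iff (by omega)).mp h3.le

/-- A polynomial of degree at most `m`, divided by `t ^ m`. -/
theorem poly_mem [Finite F] (V : ValuationSubring K)
    (hV : (algebraMap (RatFunc F) K RatFunc.X)⁻¹ ∈ V) (p : F[X]) (m : ℕ) (hp : p.natDegree ≤ m) :
    algebraMap (RatFunc F) K (algebraMap F[X] (RatFunc F) p) /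
      (algebraMap (RatFunc F) K RatFunc.X) ^ m ∈ V := by
  have hX : (algebraMap (RatFunc F) K RatFunc.X) ≠ 0 := by
    simpa using RatFunc.X_ne_zero
  rw [p.as_sum_range' (m + 1) (by omega), map_sum, map_sum, Finset.sum_div]
  refine sum_mem fun i hi => ?_
  have hi' : i ≤ m := by
    have := Finset.mem_range.mp hi
    omega
  rw [← Polynomial.C_mul_X_pow_eq_monomial, map_mul, map_mul, map_pow, map_pow,
    RatFunc.algebraMap_X, RatFunc.algebraMap_C, mul_div_assoc]
  refine mul_mem (const_mem V _) ?_
  have : (algebraMap (RatFunc F) K RatFunc.X) ^ i / (algebraMap (RatFunc F) K RatFunc.X) ^ m =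
      ((algebraMap (RatFunc F) K RatFunc.X)⁻¹) ^ (m - i) := by
    rw [inv_pow, div_eq_iff (pow_ne_zero _ hX), eq_comm, inv_mul_eq_iff_eq_mul₀ (pow_ne_zero _ hX),
      ← pow_add]
    congr 1
    omega
  rw [this]
  exact pow_mem hV _

/-- A valuation ring which does not contain `t` contains `O_∞`. -/
theorem inf_le [Finite F] (V : ValuationSubring K) (hV : algebraMap (RatFunc F) K RatFunc.X ∉ V)
    (x : RatFunc F) (hx : x ∈ OInf F) : algebraMap (RatFunc F) K x ∈ V := by
  set τ := algebraMap (RatFunc F) K RatFunc.X with hτ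
  have hX : τ ≠ 0 := by
    simpa [hτ] using RatFunc.X_ne_zero
  have hinv : τ⁻¹ ∈ V := (V.mem_or_inv_mem τ).resolve_left hV
  have hvt : 1 < V.valuation τ := by
    rw [← not_le, V.valuation_le_one_iff]
    exact hV
  by_cases hx0 : x = 0
  · subst hx0
    simp
  have hq : x.denom.Monic := RatFunc.monic_denom x
  have hd : (x.num.natDegree : ℤ) - x.denom.natDegree ≤ 0 := hx
  set q := x.denom with hqd
  set m := q.natDegree with hm
  have hxe : algebraMap (RatFunc F) K x =
      (algebraMap (RatFunc F) K (algebraMap F[X] (RatFunc F) x.num) / τ ^ m) /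
      (algebraMap (RatFunc F) K (algebraMap F[X] (RatFunc F) q) / τ ^ m) := by
    rw [div_div_div_cancel_right₀ (pow_ne_zero _ hX), ← map_div₀, hqd, RatFunc.num_div_denom]
  rw [hxe, ← V.valuation_le_one_iff, map_div₀]
  have h1 : V.valuation (algebraMap (RatFunc F) K (algebraMap F[X] (RatFunc F) x.num) / τ ^ m) ≤ 1 :=
    (V.valuation_le_one_iff _).mpr (poly_mem V hinv _ m (by omega))
  have h2 : V.valuation (algebraMap (RatFunc F) K (algebraMap F[X] (RatFunc F) q) / τ ^ m) = 1 := by
    have e1 : algebraMap (RatFunc F) K (algebraMap F[X] (RatFunc F) q) / τ ^ m =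
        1 + algebraMap (RatFunc F) K (algebraMap F[X] (RatFunc F) (q - X ^ m)) / τ ^ m := by
      rw [map_sub, map_sub, map_pow, map_pow, RatFunc.algebraMap_X, ← hτ, sub_div,
        div_self (pow_ne_zero _ hX)]
      ring
    rw [e1]
    apply Valuation.map_one_add_of_lt
    by_cases hm0 : m = 0
    · have : q = 1 := Polynomial.eq_one_of_monic_natDegree_zero hq hm0
      rw [hm0, this]
      simp
    have hdeg : (q - X ^ m).natDegree ≤ m - 1 := by
      rw [Polynomial.natDegree_le_iff_coeff_eq_zero]
      intro l hl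
      rw [Polynomial.coeff_sub, Polynomial.coeff_X_pow]
      rcases (show l = m ∨ m < l by omega) with rfl | h
      · rw [if_pos rfl, hm]
        rw [show q.coeff q.natDegree = 1 from hq]
        ring
      · rw [if_neg (by omega), Polynomial.coeff_eq_zero_of_natDegree_lt (by omega)]
        ring
    have h3 := poly_mem V hinv (q - X ^ m) (m - 1) hdeg
    rw [← hτ] at h3
    have e2 : algebraMap (RatFunc F) K (algebraMap F[X] (RatFunc F) (q - X ^ m)) / τ ^ m =
        algebraMap (RatFunc F) K (algebraMap F[X] (RatFunc F) (q - X ^ m)) / τ ^ (m - 1) * τ⁻¹ := by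
      have : τ ^ m = τ ^ (m - 1) * τ := by
        rw [← pow_succ]
        congr 1
        omega
      rw [this]
      field_simp
    rw [e2, map_mul, map_inv₀]
    refine lt_of_le_of_lt (mul_le_mul_left ((V.valuation_le_one_iff _).mpr h3) _) ?_
    rw [one_mul]
    exact inv_lt_one_of_one_lt₀ hvt
  rw [h2, div_one]
  exact h1

/-- The algebra structure over `O_∞`. -/
@[reducible] noncomputable def algI (F : Type) [Field F] (K : Type) [Field K] [Algebra (RatFunc F) K] :
    Algebra (VI F) K :=
  ((algebraMap (RatFunc F) K).comp (VI F).subtype).toAlgebra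

/-- Every valuation ring of `K` which contains `O_∞` and `t` contains everything. -/
theorem top_of [FiniteDimensional (RatFunc F) K] (V : ValuationSubring K)
    (h1 : ∀ x : RatFunc F, x ∈ OInf F → algebraMap (RatFunc F) K x ∈ V)
    (h2 : algebraMap (RatFunc F) K RatFunc.X ∈ V) (x : K) : x ∈ V := by
  have h3 : ∀ y : RatFunc F, algebraMap (RatFunc F) K y ∈ V := by
    intro y
    by_cases hy : y = 0
    · subst hy
      simp
    have : y = RatFunc.X ^ (y.intDegree.toNat) * (y / RatFunc.X ^ (y.intDegree.toNat)) := by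
      rw [mul_div_cancel₀]
      exact pow_ne_zero _ RatFunc.X_ne_zero
    rw [this, map_mul, map_pow]
    refine mul_mem (pow_mem h2 _) (h1 _ ?_)
    rw [BIRN2.mem_OInf, RatFunc.intDegree_div hy (pow_ne_zero _ RatFunc.X_ne_zero),
      BIRN2.intDegree_X_pow]
    omega
  have hint : IsIntegral (RatFunc F) x := Algebra.IsIntegral.isIntegral x
  obtain ⟨p, hp, hpx⟩ := hint
  have hV : IsIntegrallyClosedIn V K := inferInstance
  let φ : RatFunc F →+* V := (algebraMap (RatFunc F) K).codRestrict V.toSubring h3
  have hx : IsIntegral V x := by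
    refine ⟨p.map φ, hp.map _, ?_⟩
    rw [Polynomial.eval₂_map]
    exact hpx
  obtain ⟨y, hy⟩ := (IsIntegrallyClosedIn.isIntegral_iff (R := V) (A := K)).mp hx
  rw [← hy]
  exact y.2

/-- The ring of the elements integral over `O_∞` is `O`. -/
theorem mem_O_iff [Finite F] [FiniteDimensional (RatFunc F) K] (O : ValuationSubring K)
    (hO : OnePole F O) (x : K) :
    x ∈ O ↔ letI := algI F K; IsIntegral (VI F) x := by
  let := algI F K
  constructor
  · intro hx
    by_contra hcon
    have h1 : x ∉ (integralClosure (VI F) K).toSubring := hcon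
    obtain ⟨V, hV1, hV2⟩ := Subring.exists_le_valuationSubring_of_isIntegrallyClosedIn h1
    have h2 : ∀ y : RatFunc F, y ∈ OInf F → algebraMap (RatFunc F) K y ∈ V := by
      intro y hy
      apply hV1
      have : IsIntegral (VI F) (algebraMap (VI F) K ⟨y, (mem_VI y).mpr hy⟩) := isIntegral_algebraMap
      exact this
    by_cases h3 : algebraMap (RatFunc F) K RatFunc.X ∈ V
    · exact hV2 (top_of V h2 h3 x)
    · exact hV2 (by rw [hO.2 V h3]; exact hx)
  · intro hx
    obtain ⟨p, hp, hpx⟩ := hx
    let φ : VI F →+* O := ((algebraMap (RatFunc F) K).comp (VI F).subtype).codRestrict O.toSubring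
      (fun y => inf_le O hO.1 _ ((mem_VI _).mp y.2))
    have hV : IsIntegrallyClosedIn O K := inferInstance
    have hx : IsIntegral O x := by
      refine ⟨p.map φ, hp.map _, ?_⟩
      rw [Polynomial.eval₂_map]
      exact hpx
    obtain ⟨y, hy⟩ := (IsIntegrallyClosedIn.isIntegral_iff (R := O) (A := K)).mp hx
    rw [← hy]
    exact y.2

/-- A basis of `O` over `O_∞`. -/
theorem basisO [Finite F] [FiniteDimensional (RatFunc F) K] [Algebra.IsSeparable (RatFunc F) K]
    (O : ValuationSubring K) (hO : OnePole F O) :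
    ∃ ω : Basis (Fin (finrank (RatFunc F) K)) (RatFunc F) K,
      ∀ x : K, x ∈ O ↔ ∀ i, ω.repr x i ∈ OInf F := by
  let := algI F K
  have : IsScalarTower (VI F) (RatFunc F) K := IsScalarTower.of_algebraMap_eq fun x => rfl
  have htf : Module.IsTorsionFree (VI F) K := by
    rw [Module.isTorsionFree_iff_algebraMap_injective]
    exact (algebraMap (RatFunc F) K).injective.comp Subtype.val_injective
  have hfree : Module.Free (VI F) (integralClosure (VI F) K) :=
    IsIntegralClosure.module_free (VI F) (RatFunc F) K (integralClosure (VI F) K)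
  have hfin : Module.Finite (VI F) (integralClosure (VI F) K) :=
    IsIntegralClosure.finite (VI F) (RatFunc F) K (integralClosure (VI F) K)
  have hrank : finrank (VI F) (integralClosure (VI F) K) = finrank (RatFunc F) K :=
    IsIntegralClosure.rank (VI F) (RatFunc F) K (integralClosure (VI F) K)
  have hloc : IsLocalization (Algebra.algebraMapSubmonoid (integralClosure (VI F) K)
      (nonZeroDivisors (VI F))) K :=
    IsIntegralClosure.isLocalization (VI F) (RatFunc F) K (integralClosure (VI F) K)
  let b0 : Basis (Fin (finrank (RatFunc F) K)) (VI F) (integralClosure (VI F) K) :=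
    (Module.finBasisOfFinrankEq (VI F) (integralClosure (VI F) K) hrank)
  let ω := Basis.localizationLocalization (RatFunc F) (nonZeroDivisors (VI F)) K b0
  refine ⟨ω, fun x => ?_⟩
  rw [mem_O_iff O hO x]
  constructor
  · intro hx i
    have h1 : ω.repr (algebraMap (integralClosure (VI F) K) K ⟨x, hx⟩) i =
        algebraMap (VI F) (RatFunc F) (b0.repr ⟨x, hx⟩ i) :=
      Basis.localizationLocalization_repr_algebraMap (RatFunc F) (nonZeroDivisors (VI F)) K b0 _ i
    have h2 : algebraMap (integralClosure (VI F) K) K ⟨x, hx⟩ = x := rfl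
    rw [h2] at h1
    rw [h1]
    exact (mem_VI _).mp (b0.repr ⟨x, hx⟩ i).2
  · intro hx
    rw [← ω.sum_repr x]
    refine IsIntegral.sum _ fun i _ => ?_
    have h1 : ω i = algebraMap (integralClosure (VI F) K) K (b0 i) :=
      Basis.localizationLocalization_apply (RatFunc F) (nonZeroDivisors (VI F)) K b0 i
    have h2 : ω.repr x i • ω i = algebraMap (VI F) K ⟨ω.repr x i, (mem_VI _).mpr (hx i)⟩ * ω i := by
      rw [Algebra.smul_def]
      rfl
    rw [h2]
    refine IsIntegral.mul isIntegral_algebraMap ?_
    rw [h1]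
    exact (b0 i).2

end Inf

end Pool.T1.MKI
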