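import Mathlib

/-!
# T1: MINKI, part A: independent vectors, sums, and determinants
-/

set_option autoImplicit false

namespace Pool.T1.MKI

open Matrix Module

/-- Among the first `n j + 1` vectors, independent over `k`, there are `j + 1` which are independent
over `K`. -/
theorem sel {k K : Type} [Field k] [Field K] [Algebra k K] [FiniteDimensional k K] {N M : ℕ}
    (e : Fin M → Fin N → K) (he : LinearIndependent k e) (hM : N * finrank k K ≤ M) :
    ∀ j : ℕ, j ≤ N → ∃ σ : Fin j → Fin M, LinearIndependent K (fun i => e (σ i)) ∧
      ∀ i : Fin j, ((σ i : ℕ)) ≤ finrank k K * i := by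
  intro j
  induction j with
  | zero =>
    intro _
    exact ⟨Fin.elim0, linearIndependent_empty_type, fun i => i.elim0⟩
  | succ j ih =>
    intro hj
    obtain ⟨σ, hσ, hle⟩ := ih (by omega)
    set W := Submodule.span K (Set.range (fun i => e (σ i))) with hW
    have hdim : finrank K W = j := by
      rw [hW, finrank_span_eq_card hσ, Fintype.card_fin]
    have hdimk : finrank k W = finrank k K * j := by
      rw [← hdim]
      exact (Module.finrank_mul_finrank k K W).symm
    have hpos : 0 < finrank k K := Module.finrank_pos
    have hlt : finrank k K * j < M := by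
      have : finrank k K * (j + 1) ≤ finrank k K * N := Nat.mul_le_mul_left _ hj
      have h2 : finrank k K * (j + 1) = finrank k K * j + finrank k K := by ring
      have h3 : N * finrank k K = finrank k K * N := by ring
      omega
    have hex : ∃ i : Fin M, (i : ℕ) ≤ finrank k K * j ∧ e i ∉ W := by
      by_contra hcon
      push Not at hcon
      have hinj : Function.Injective
          (fun i : Fin (finrank k K * j + 1) => (⟨i, by omega⟩ : Fin M)) := by
        intro a b hab
        simp only [Fin.mk.injEq] at hab
        exact Fin.ext hab
      have hli : LinearIndependent k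
          (fun i : Fin (finrank k K * j + 1) => e (⟨i, by omega⟩ : Fin M)) :=
        he.comp _ hinj
      have hli2 : LinearIndependent k
          (fun i : Fin (finrank k K * j + 1) =>
            (⟨e (⟨i, by omega⟩ : Fin M), hcon _ (by simp only; omega)⟩ : W)) :=
        LinearIndependent.of_comp (W.subtype.restrictScalars k) hli
      have hfin : Module.Finite k W := by
        have h1 : Module.Finite k (Fin N → K) := inferInstance
        have h2 : Module.Finite K W := inferInstance
        exact Module.Finite.trans K W
      have := hli2.fintype_card_le_finrank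
      rw [Fintype.card_fin, hdimk] at this
      omega
    obtain ⟨i, hi, hiW⟩ := hex
    refine ⟨Fin.snoc σ i, ?_, ?_⟩
    · have hfun : (fun l => e ((Fin.snoc σ i : Fin (j + 1) → Fin M) l)) =
          Fin.snoc (fun l => e (σ l)) (e i) := by
        funext l
        refine Fin.lastCases ?_ (fun l => ?_) l
        · simp
        · simp
      rw [hfun]
      exact linearIndependent_fin_snoc.mpr ⟨hσ, hiW⟩
    · intro l
      refine Fin.lastCases ?_ (fun l => ?_) l
      · simpa using hi
      · simpa using hle l

/-- A monotone sequence dominates its subsequence. -/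
theorem sumle {N n : ℕ} (d : Fin (N * n) → ℤ) (hd : Monotone d) (hn : 0 < n) :
    (n : ℤ) * ∑ j : Fin N, d (finProdFinEquiv (j, ⟨0, hn⟩)) ≤ ∑ i, d i := by
  rw [← finProdFinEquiv.sum_comp, Fintype.sum_prod_type, Finset.mul_sum]
  refine Finset.sum_le_sum fun j _ => ?_
  have : ∀ r : Fin n, d (finProdFinEquiv (j, ⟨0, hn⟩)) ≤ d (finProdFinEquiv (j, r)) := by
    intro r
    apply hd
    rw [Fin.le_def]
    simp [finProdFinEquiv]
  calc (n : ℤ) * d (finProdFinEquiv (j, ⟨0, hn⟩))
      = ∑ _r : Fin n, d (finProdFinEquiv (j, ⟨0, hn⟩)) := by simp
    _ ≤ _ := Finset.sum_le_sum fun r _ => this r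

end Pool.T1.MKI
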