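import Pool.Agent.H29.T1.Conc

/-!
# T1: MINKI, part C: the trace, and bases over `F[t]`
-/

set_option autoImplicit false

namespace Pool.T1.MKI

open Polynomial Matrix Module Pool.AVR Pool.AVS Pool.HYP

section Tr

variable (F : Type) [Field F] (K : Type) [Field K] [Algebra (RatFunc F) K]
  [FiniteDimensional (RatFunc F) K] [Algebra.IsSeparable (RatFunc F) K]

theorem trace_int (r : K) (hr : r ∈ RS F K) :
    ∃ p : F[X], Algebra.trace (RatFunc F) K r = algebraMap F[X] (RatFunc F) p := by
  let := algX F K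
  have : IsScalarTower F[X] (RatFunc F) K := IsScalarTower.of_algebraMap_eq fun x => rfl
  have h : IsIntegral F[X] r := hr
  have h2 : IsIntegral F[X] (Algebra.trace (RatFunc F) K r) := Algebra.isIntegral_trace h
  obtain ⟨p, hp⟩ := IsIntegrallyClosed.isIntegral_iff.mp h2
  exact ⟨p, hp.symm⟩

theorem exists_delta : ∃ δ : F[X], δ ≠ 0 ∧ ∀ z : K,
    (∀ r ∈ RS F K, ∃ p : F[X], Algebra.trace (RatFunc F) K (z * r) = algebraMap F[X] (RatFunc F) p) →
    algebraMap (RatFunc F) K (algebraMap F[X] (RatFunc F) δ) * z ∈ RS F K := by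
  classical
  let := algX F K
  have : IsScalarTower F[X] (RatFunc F) K := IsScalarTower.of_algebraMap_eq fun x => rfl
  obtain ⟨s, b, hb⟩ := FiniteDimensional.exists_is_basis_integral F[X] (RatFunc F) K
  let b' := (Algebra.traceForm (RatFunc F) K).dualBasis (traceForm_nondegenerate (RatFunc F) K) b
  obtain ⟨δ, hδ, hint⟩ := exists_integral_multiples F[X] (RatFunc F) (Finset.univ.image b')
  refine ⟨δ, hδ, fun z hz => ?_⟩
  have h1 : algebraMap (RatFunc F) K (algebraMap F[X] (RatFunc F) δ) * z =
      ∑ i, algebraMap (RatFunc F) K (b'.repr z i) * (δ • b' i) := by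
    conv_lhs => rw [← b'.sum_repr z, Finset.mul_sum]
    refine Finset.sum_congr rfl fun i _ => ?_
    rw [Algebra.smul_def, Algebra.smul_def]
    have : algebraMap F[X] K δ = algebraMap (RatFunc F) K (algebraMap F[X] (RatFunc F) δ) := rfl
    rw [this]
    ring
  rw [h1]
  refine sum_mem fun i _ => mul_mem ?_ ?_
  · obtain ⟨p, hp⟩ := hz (b i) (hb i)
    have h2 : b'.repr z i = Algebra.trace (RatFunc F) K (z * b i) := by
      rw [LinearMap.BilinForm.dualBasis_repr_apply, Algebra.traceForm_apply]
    rw [h2, hp]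
    exact (xR F K p).2
  · exact hint _ (Finset.mem_image_of_mem _ (Finset.mem_univ _))

end Tr

section Lat

variable {F : Type} [Field F] {K : Type} [Field K] [Algebra (RatFunc F) K]
  [FiniteDimensional (RatFunc F) K] [Algebra.IsSeparable (RatFunc F) K]

/-- Multiplication by a polynomial. -/
theorem smul_poly {N : ℕ} (Λ : Submodule (RR F K) (Fin N → K)) (p : F[X]) (x : Fin N → K)
    (hx : x ∈ Λ) : (algebraMap F[X] (RatFunc F) p) • x ∈ Λ := by
  have h := Λ.smul_mem (xR F K p) hx
  have : (xR F K p) • x = (algebraMap F[X] (RatFunc F) p) • x := by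
    funext i
    rw [Pi.smul_apply, Pi.smul_apply, Algebra.smul_def, Algebra.smul_def]
    rfl
  rwa [this] at h

theorem latbas {N : ℕ} (Λ : Submodule (RR F K) (Fin N → K)) (Γ : Matrix (Fin N) (Fin N) K)
    (hΓ : Γ.det ≠ 0)
    (hE : ∃ E : Matrix (Fin N) (Fin N) K, E.det ≠ 0 ∧ ∀ j, (fun i => E i j) ∈ Λ)
    (hd : ∀ y ∈ Λ, ∀ x ∈ Λ, x ⬝ᵥ (Γ *ᵥ y) ∈ Set.range (algebraMap (RR F K) K)) :
    ∃ e : Basis (Fin (N * finrank (RatFunc F) K)) (RatFunc F) (Fin N → K), (∀ i, e i ∈ Λ) ∧
      ∀ x ∈ Λ, ∀ i, ∃ p : F[X], e.repr x i = algebraMap F[X] (RatFunc F) p := by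
  classical
  let := algX F K
  have hst : IsScalarTower F[X] (RatFunc F) K := IsScalarTower.of_algebraMap_eq fun x => rfl
  have hst2 : IsScalarTower F[X] (RR F K) K := IsScalarTower.of_algebraMap_eq fun x => rfl
  have hfR : Module.Finite F[X] (RR F K) := finite_RR F K
  have hstV : IsScalarTower F[X] (RatFunc F) (Fin N → K) := inferInstance
  obtain ⟨E, hEd, hEm⟩ := hE
  let L : Submodule F[X] (Fin N → K) := Λ.restrictScalars F[X]
  have hLmem : ∀ x, x ∈ L ↔ x ∈ Λ := fun x => Iff.rfl
  -- the map into `R ^ N`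
  have hmem : ∀ y : L, ∀ j, ((Eᵀ * Γ) *ᵥ (y : Fin N → K)) j ∈ RS F K := by
    intro y j
    obtain ⟨r, hr⟩ := hd _ y.2 _ (hEm j)
    have : ((Eᵀ * Γ) *ᵥ (y : Fin N → K)) j = (fun i => E i j) ⬝ᵥ (Γ *ᵥ (y : Fin N → K)) := by
      rw [← Matrix.mulVec_mulVec]
      rfl
    rw [this, ← hr]
    exact r.2
  let ψ : L →ₗ[F[X]] (Fin N → RR F K) :=
    { toFun := fun y j => ⟨((Eᵀ * Γ) *ᵥ (y : Fin N → K)) j, hmem y j⟩
      map_add' := by
        intro x y
        funext j
        apply Subtype.ext
        simp only [Submodule.coe_add, Matrix.mulVec_add, Pi.add_apply]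
        rfl
      map_smul' := by
        intro p x
        funext j
        apply Subtype.ext
        have h1 : ((p • x : L) : Fin N → K) = (algebraMap F[X] K p) • (x : Fin N → K) := by
          funext i
          rw [Submodule.coe_smul, Pi.smul_apply, Pi.smul_apply, Algebra.smul_def, smul_eq_mul]
        simp only [RingHom.id_apply, Pi.smul_apply, Algebra.smul_def]
        rw [h1, Matrix.mulVec_smul]
        rfl }
  have hdet : (Eᵀ * Γ).det ≠ 0 := by
    rw [Matrix.det_mul, Matrix.det_transpose]
    exact mul_ne_zero hEd hΓ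
  have hψ : Function.Injective ψ := by
    rw [injective_iff_map_eq_zero]
    intro y hy
    have h1 : (Eᵀ * Γ) *ᵥ (y : Fin N → K) = 0 := by
      funext j
      have := congrFun hy j
      have := congrArg Subtype.val this
      exact this
    apply Subtype.ext
    exact Matrix.eq_zero_of_mulVec_eq_zero hdet h1
  have hnoeth : IsNoetherian F[X] (Fin N → RR F K) := inferInstance
  have hLfin : Module.Finite F[X] L := Module.Finite.of_injective ψ hψ
  have htf : Module.IsTorsionFree F[X] L := by
    have h1 : Module.IsTorsionFree F[X] K := by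
      rw [Module.isTorsionFree_iff_algebraMap_injective]
      exact (algebraMap (RatFunc F) K).injective.comp (IsFractionRing.injective F[X] (RatFunc F))
    infer_instance
  have hfree : Module.Free F[X] L := inferInstance
  let b := Module.Free.chooseBasis F[X] L
  have hli : LinearIndependent (RatFunc F) (fun i => ((b i : L) : Fin N → K)) := by
    rw [← LinearIndependent.iff_fractionRing F[X] (RatFunc F)]
    exact b.linearIndependent.map' L.subtype (by simp)
  have hin : ∀ x ∈ Λ, x ∈ Submodule.span (RatFunc F) (Set.range (fun i => ((b i : L) : Fin N → K))) := by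
    intro x hx
    have h1 := b.sum_repr (⟨x, hx⟩ : L)
    have h2 := congrArg (fun y : L => (y : Fin N → K)) h1
    simp only [AddSubmonoidClass.coe_finsetSum, Submodule.coe_smul] at h2
    rw [← h2]
    refine Submodule.sum_mem _ fun i _ => ?_
    rw [← algebraMap_smul (RatFunc F) (b.repr (⟨x, hx⟩ : L) i) ((b i : L) : Fin N → K)]
    exact Submodule.smul_mem _ _ (Submodule.subset_span ⟨i, rfl⟩)
  have hsp : ⊤ ≤ Submodule.span (RatFunc F) (Set.range (fun i => ((b i : L) : Fin N → K))) := by
    intro x _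
    have hx : x = ∑ j, (E⁻¹ *ᵥ x) j • (fun i => E i j) := by
      have h1 : E *ᵥ (E⁻¹ *ᵥ x) = x := by
        rw [Matrix.mulVec_mulVec, Matrix.mul_nonsing_inv _ (isUnit_iff_ne_zero.mpr hEd),
          Matrix.one_mulVec]
      conv_lhs => rw [← h1]
      funext i
      simp only [Matrix.mulVec, dotProduct, Finset.sum_apply, Pi.smul_apply, smul_eq_mul]
      refine Finset.sum_congr rfl fun j _ => ?_
      ring
    rw [hx]
    refine Submodule.sum_mem _ fun j _ => ?_
    set a := (E⁻¹ *ᵥ x) j
    obtain ⟨s, hs, hsa⟩ := exists_integral_multiples F[X] (RatFunc F) ({a} : Finset K)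
    have hsa' : s • a ∈ RS F K := hsa a (Finset.mem_singleton_self a)
    have hs' : algebraMap F[X] (RatFunc F) s ≠ 0 := by simpa using hs
    have h3 : a • (fun i => E i j) = (algebraMap F[X] (RatFunc F) s)⁻¹ •
        ((⟨s • a, hsa'⟩ : RR F K) • (fun i => E i j)) := by
      funext i
      have hs'' : algebraMap (RatFunc F) K (algebraMap F[X] (RatFunc F) s) ≠ 0 := by
        simpa using hs
      simp only [Pi.smul_apply, smul_eq_mul]
      rw [Algebra.smul_def, Algebra.smul_def]
      have h4 : algebraMap (RR F K) K ⟨s • a, hsa'⟩ =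
          algebraMap (RatFunc F) K (algebraMap F[X] (RatFunc F) s) * a := by
        rw [algMap_RR]
        exact Algebra.smul_def _ _
      rw [h4, map_inv₀]
      field_simp
    rw [h3]
    exact Submodule.smul_mem _ _ (hin _ (Λ.smul_mem _ (hEm j)))
  let e0 := Basis.mk hli hsp
  have hcard : Fintype.card (Module.Free.ChooseBasisIndex F[X] L) = N * finrank (RatFunc F) K := by
    rw [← Module.finrank_eq_card_basis e0, ← Module.finrank_mul_finrank (RatFunc F) K (Fin N → K),
      Module.finrank_fin_fun]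
    ring
  let eq := Fintype.equivFinOfCardEq hcard
  refine ⟨e0.reindex eq, ?_, ?_⟩
  · intro i
    rw [Basis.reindex_apply, Basis.mk_apply]
    exact (b _).2
  · intro x hx i
    refine ⟨b.repr (⟨x, hx⟩ : L) (eq.symm i), ?_⟩
    rw [Basis.repr_reindex_apply]
    have h1 := b.sum_repr (⟨x, hx⟩ : L)
    have h2 := congrArg (fun y : L => (y : Fin N → K)) h1
    simp only [AddSubmonoidClass.coe_finsetSum, Submodule.coe_smul] at h2
    have h3 : x = ∑ l, (algebraMap F[X] (RatFunc F) (b.repr (⟨x, hx⟩ : L) l)) • e0 l := by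
      refine Eq.trans h2.symm ?_
      refine Finset.sum_congr rfl fun l _ => ?_
      rw [Basis.mk_apply, algebraMap_smul]
    have h5 := congrArg (fun v => e0.repr v (eq.symm i)) h3
    simp only [map_sum, map_smul, Finsupp.coe_finset_sum, Finset.sum_apply, Finsupp.coe_smul,
      Pi.smul_apply, Basis.repr_self, Finsupp.single_apply, smul_eq_mul, mul_ite, mul_one, mul_zero,
      Finset.sum_ite_eq', Finset.mem_univ, if_true] at h5
    exact h5

end Lat

end Pool.T1.MKI
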