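import Pool.Agent.H17.T1.MkA
import Pool.Agent.H17.T1.MkB
import Pool.Agent.H17.T1.MkC

/-!
# T1: MINKI, part D: Gram matrices
-/

set_option autoImplicit false

namespace Pool.T1.MKI

open Polynomial Matrix Module Pool.AVR Pool.AVS Pool.HYP

section Gram

variable (F : Type) [Field F] {K : Type} [Field K] [Algebra (RatFunc F) K]

/-- The bilinear form `Tr (xᵀ Γ y)`. -/
noncomputable def Bf {N : ℕ} (Γ : Matrix (Fin N) (Fin N) K) :
    LinearMap.BilinForm (RatFunc F) (Fin N → K) :=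
  LinearMap.mk₂ (RatFunc F) (fun x y => Algebra.trace (RatFunc F) K (x ⬝ᵥ (Γ *ᵥ y)))
    (fun x y z => by rw [add_dotProduct, map_add])
    (fun a x y => by rw [smul_dotProduct, map_smul])
    (fun x y z => by rw [Matrix.mulVec_add, dotProduct_add, map_add])
    (fun a x y => by
      rw [Matrix.mulVec_smul, dotProduct_smul, map_smul])

theorem Bf_apply {N : ℕ} (Γ : Matrix (Fin N) (Fin N) K) (x y : Fin N → K) :
    Bf F Γ x y = Algebra.trace (RatFunc F) K (x ⬝ᵥ (Γ *ᵥ y)) := rfl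

/-- The linear map of a matrix. -/
noncomputable def mv {N : ℕ} (Γ : Matrix (Fin N) (Fin N) K) :
    (Fin N → K) →ₗ[RatFunc F] (Fin N → K) := (Matrix.mulVecLin Γ).restrictScalars (RatFunc F)

theorem mv_apply {N : ℕ} (Γ : Matrix (Fin N) (Fin N) K) (x : Fin N → K) : mv F Γ x = Γ *ᵥ x := rfl

variable {F}

/-- The determinant of the Gram matrix of a self-dual lattice. -/
theorem gramA {N M : ℕ} (Λ : Submodule (RR F K) (Fin N → K)) (Γ : Matrix (Fin N) (Fin N) K)
    (hself : ∀ y : Fin N → K, y ∈ Λ ↔ ∀ x ∈ Λ, x ⬝ᵥ (Γ *ᵥ y) ∈ Set.range (algebraMap (RR F K) K))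
    (e : Basis (Fin M) (RatFunc F) (Fin N → K)) (he : ∀ i, e i ∈ Λ)
    (hr : ∀ x ∈ Λ, ∀ i, ∃ p : F[X], e.repr x i = algebraMap F[X] (RatFunc F) p)
    (δ : F[X]) (hδ : δ ≠ 0)
    (hδ2 : ∀ z : K, (∀ r ∈ RS F K, ∃ p : F[X],
      Algebra.trace (RatFunc F) K (z * r) = algebraMap F[X] (RatFunc F) p) →
      algebraMap (RatFunc F) K (algebraMap F[X] (RatFunc F) δ) * z ∈ RS F K)
    (hdet : (LinearMap.BilinForm.toMatrix e (Bf F Γ)).det ≠ 0) :
    (LinearMap.BilinForm.toMatrix e (Bf F Γ)).det.intDegree ≤ (M : ℤ) * δ.natDegree := by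
  classical
  set G := LinearMap.BilinForm.toMatrix e (Bf F Γ) with hG
  have hGH : G * G⁻¹ = 1 := Matrix.mul_nonsing_inv _ (isUnit_iff_ne_zero.mpr hdet)
  let f : Fin M → (Fin N → K) := fun j => ∑ i, G⁻¹ i j • e i
  have hf1 : ∀ l j, Bf F Γ (e l) (f j) = if l = j then 1 else 0 := by
    intro l j
    have h1 : Bf F Γ (e l) (f j) = (G * G⁻¹) l j := by
      simp only [f, map_sum, map_smul, Matrix.mul_apply, smul_eq_mul]
      refine Finset.sum_congr rfl fun i _ => ?_
      rw [hG, LinearMap.BilinForm.toMatrix_apply]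
      ring
    rw [h1, hGH, Matrix.one_apply]
  have hf2 : ∀ x, ∀ j, Bf F Γ x (f j) = e.repr x j := by
    intro x j
    conv_lhs => rw [← e.sum_repr x]
    simp only [map_sum, map_smul, LinearMap.sum_apply, LinearMap.smul_apply, hf1, smul_eq_mul,
      mul_ite, mul_one, mul_zero, Finset.sum_ite_eq', Finset.mem_univ, if_true]
  have hf3 : ∀ j, (algebraMap F[X] (RatFunc F) δ) • f j ∈ Λ := by
    intro j
    rw [hself]
    intro x hx
    have h1 := hδ2 (x ⬝ᵥ (Γ *ᵥ f j)) (by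
      intro r hr'
      obtain ⟨p, hp⟩ := hr _ (Λ.smul_mem (⟨r, hr'⟩ : RR F K) hx) j
      refine ⟨p, ?_⟩
      rw [← hp, ← hf2, Bf_apply]
      have : ((⟨r, hr'⟩ : RR F K) • x) = r • x := by
        funext i
        rw [Pi.smul_apply, Pi.smul_apply, Algebra.smul_def, algMap_RR, smul_eq_mul]
      rw [this, smul_dotProduct, smul_eq_mul]
      congr 1
      ring)
    refine ⟨⟨_, h1⟩, ?_⟩
    rw [algMap_RR, Matrix.mulVec_smul, dotProduct_smul, Algebra.smul_def]
  have hH : ∀ i j, ∃ p : F[X], algebraMap F[X] (RatFunc F) δ * G⁻¹ i j =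
      algebraMap F[X] (RatFunc F) p := by
    intro i j
    obtain ⟨p, hp⟩ := hr _ (hf3 j) i
    refine ⟨p, ?_⟩
    rw [← hp, map_smul, Finsupp.smul_apply, smul_eq_mul]
    congr 1
    simp only [f, map_sum, map_smul, Finsupp.coe_finset_sum, Finset.sum_apply, Finsupp.coe_smul,
      Pi.smul_apply, Basis.repr_self, Finsupp.single_apply, smul_eq_mul, mul_ite, mul_one, mul_zero,
      Finset.sum_ite_eq', Finset.mem_univ, if_true]
  choose H hH' using hH
  have h1 : mK (Matrix.of H) = (algebraMap F[X] (RatFunc F) δ) • G⁻¹ := by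
    ext i j
    rw [Matrix.smul_apply, smul_eq_mul, hH']
    rfl
  have h2 : algebraMap F[X] (RatFunc F) (Matrix.of H).det =
      (algebraMap F[X] (RatFunc F) δ) ^ M * (G⁻¹).det := by
    rw [RingHom.map_det]
    have := congrArg Matrix.det h1
    rw [Matrix.det_smul, Fintype.card_fin] at this
    exact this
  have h3 : G.det * (G⁻¹).det = 1 := by
    rw [← Matrix.det_mul, hGH, Matrix.det_one]
  have h4 : (algebraMap F[X] (RatFunc F) δ) ^ M =
      G.det * algebraMap F[X] (RatFunc F) (Matrix.of H).det := by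
    rw [h2]
    linear_combination (-(algebraMap F[X] (RatFunc F) δ) ^ M) * h3
  have hδ' : algebraMap F[X] (RatFunc F) δ ≠ 0 := by simpa using hδ
  have h5 : algebraMap F[X] (RatFunc F) (Matrix.of H).det ≠ 0 := by
    intro h0
    rw [h0, mul_zero] at h4
    exact pow_ne_zero _ hδ' h4
  have h6 := congrArg RatFunc.intDegree h4
  rw [RatFunc.intDegree_mul hdet h5, ← map_pow, RatFunc.intDegree_polynomial,
    RatFunc.intDegree_polynomial, Polynomial.natDegree_pow] at h6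
  push_cast at h6
  have : (0 : ℤ) ≤ ((Matrix.of H).det.natDegree : ℤ) := by positivity
  linarith

end Gram

section GramInf

variable {F : Type} [Field F] {K : Type} [Field K] [Algebra (RatFunc F) K]

/-- Entries of the inverse. -/
theorem inv_mem {N : ℕ} (O : ValuationSubring K) (Γ : Matrix (Fin N) (Fin N) K)
    (h : GIn (O : Set K) Γ) : MIn (O : Set K) Γ⁻¹ := by
  intro i j
  rw [Matrix.inv_def, Matrix.smul_apply, smul_eq_mul, Ring.inverse_eq_inv']
  refine mul_mem h.2.2.2 ?_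
  rw [Matrix.adjugate_apply]
  rw [Matrix.det_apply']
  refine sum_mem fun σ _ => mul_mem ?_ (prod_mem fun l _ => ?_)
  · exact intCast_mem O _
  · rw [Matrix.updateRow_apply]
    split_ifs
    · by_cases hl : i = l
      · subst hl
        rw [Pi.single_eq_same]
        exact one_mem O
      · rw [Pi.single_eq_of_ne (Ne.symm hl)]
        exact zero_mem O
    · exact h.1 _ _

theorem mv_int {N M : ℕ} (O : ValuationSubring K) (s : Basis (Fin M) (RatFunc F) (Fin N → K))
    (hs : ∀ x : Fin N → K, (∀ i, x i ∈ O) ↔ ∀ l, s.repr x l ∈ OInf F)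
    (Γ : Matrix (Fin N) (Fin N) K) (h : MIn (O : Set K) Γ) (i j : Fin M) :
    LinearMap.toMatrix s s (mv F Γ) i j ∈ OInf F := by
  rw [LinearMap.toMatrix_apply]
  refine (hs _).mp ?_ i
  intro l
  rw [mv_apply]
  have h1 : ∀ l, s j l ∈ O := by
    rw [hs]
    intro l
    rw [Basis.repr_self, Finsupp.single_apply]
    split_ifs
    · exact one_mem _
    · exact zero_mem _
  have h2 : (Γ *ᵥ s j) l = ∑ m, Γ l m * s j m := rfl
  rw [h2]
  exact sum_mem fun m _ => mul_mem (h _ _) (h1 m)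

theorem det_mv {N M : ℕ} (O : ValuationSubring K) (s : Basis (Fin M) (RatFunc F) (Fin N → K))
    (hs : ∀ x : Fin N → K, (∀ i, x i ∈ O) ↔ ∀ l, s.repr x l ∈ OInf F)
    (Γ : Matrix (Fin N) (Fin N) K) (h : GIn (O : Set K) Γ) :
    (LinearMap.toMatrix s s (mv F Γ)).det ≠ 0 ∧
      (LinearMap.toMatrix s s (mv F Γ)).det.intDegree = 0 := by
  have h1 : LinearMap.toMatrix s s (mv F Γ) * LinearMap.toMatrix s s (mv F Γ⁻¹) = 1 := by
    rw [← LinearMap.toMatrix_comp s s s]
    have : (mv F Γ) ∘ₗ (mv F Γ⁻¹) = LinearMap.id := by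
      refine LinearMap.ext fun x => ?_
      rw [LinearMap.comp_apply, mv_apply, mv_apply, Matrix.mulVec_mulVec,
        Matrix.mul_nonsing_inv _ (isUnit_iff_ne_zero.mpr h.2.1), Matrix.one_mulVec]
      rfl
    rw [this, LinearMap.toMatrix_id]
  have h2 : (LinearMap.toMatrix s s (mv F Γ)).det * (LinearMap.toMatrix s s (mv F Γ⁻¹)).det = 1 := by
    rw [← Matrix.det_mul, h1, Matrix.det_one]
  have h3 : (LinearMap.toMatrix s s (mv F Γ)).det ≠ 0 := left_ne_zero_of_mul_eq_one h2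
  have h4 : (LinearMap.toMatrix s s (mv F Γ⁻¹)).det ≠ 0 := right_ne_zero_of_mul_eq_one h2
  have h5 := congrArg RatFunc.intDegree h2
  rw [RatFunc.intDegree_mul h3 h4, RatFunc.intDegree_one] at h5
  have h6 : (LinearMap.toMatrix s s (mv F Γ)).det.intDegree ≤ 0 :=
    BIRN2.mem_OInf.mp (BIRN2.det_mem _ fun i j => mv_int O s hs Γ h.1 i j)
  have h7 : (LinearMap.toMatrix s s (mv F Γ⁻¹)).det.intDegree ≤ 0 :=
    BIRN2.mem_OInf.mp (BIRN2.det_mem _ fun i j => mv_int O s hs Γ⁻¹ (inv_mem O Γ h) i j)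
  exact ⟨h3, by omega⟩

/-- The Gram matrix at infinity. -/
theorem gramInf {N M : ℕ} (O : ValuationSubring K) (s : Basis (Fin M) (RatFunc F) (Fin N → K))
    (hs : ∀ x : Fin N → K, (∀ i, x i ∈ O) ↔ ∀ l, s.repr x l ∈ OInf F)
    (hnd : (LinearMap.BilinForm.toMatrix s (Bf F (1 : Matrix (Fin N) (Fin N) K))).det ≠ 0)
    (Γ gi : Matrix (Fin N) (Fin N) K) (h : GIn (O : Set K) (giᵀ * Γ * gi))
    (c : Basis (Fin M) (RatFunc F) (Fin N → K)) (hc : ∀ j, c j = gi *ᵥ s j) :
    (LinearMap.BilinForm.toMatrix c (Bf F Γ)).det ≠ 0 ∧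
      (LinearMap.BilinForm.toMatrix c (Bf F Γ)).det.intDegree =
        (LinearMap.BilinForm.toMatrix s (Bf F (1 : Matrix (Fin N) (Fin N) K))).det.intDegree := by
  have h1 : LinearMap.BilinForm.toMatrix c (Bf F Γ) =
      LinearMap.BilinForm.toMatrix s (Bf F (1 : Matrix (Fin N) (Fin N) K)) *
        LinearMap.toMatrix s s (mv F (giᵀ * Γ * gi)) := by
    rw [← LinearMap.BilinForm.toMatrix_compRight]
    ext i j
    rw [LinearMap.BilinForm.toMatrix_apply, LinearMap.BilinForm.toMatrix_apply, Bf_apply,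
      LinearMap.BilinForm.compRight_apply, Bf_apply, mv_apply, hc, hc, Matrix.one_mulVec]
    congr 1
    rw [Matrix.dotProduct_mulVec, Matrix.vecMul_mulVec, ← Matrix.dotProduct_mulVec,
      ← Matrix.mulVec_mulVec, ← Matrix.mulVec_mulVec, Matrix.mulVec_mulVec]
  obtain ⟨h2, h3⟩ := det_mv O s hs _ h
  rw [h1, Matrix.det_mul]
  refine ⟨mul_ne_zero hnd h2, ?_⟩
  rw [RatFunc.intDegree_mul hnd h2, h3, add_zero]

end GramInf

end Pool.T1.MKI
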