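import Pool.Agent.H17.T1.MkD

/-!
# T1: MINKI, part E: assembly
-/

set_option autoImplicit false

namespace Pool.T1.MKI

open Polynomial Matrix Module Pool.AVR Pool.AVS Pool.HYP

section Asm

variable {F : Type} [Field F] {K : Type} [Field K] [Algebra (RatFunc F) K]

/-- The standard basis. -/
theorem basisS [FiniteDimensional (RatFunc F) K] (O : ValuationSubring K)
    (ω : Basis (Fin (finrank (RatFunc F) K)) (RatFunc F) K)
    (hω : ∀ x : K, x ∈ O ↔ ∀ i, ω.repr x i ∈ OInf F) (N : ℕ) :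
    ∃ s : Basis (Fin (N * finrank (RatFunc F) K)) (RatFunc F) (Fin N → K),
      ∀ x : Fin N → K, (∀ i, x i ∈ O) ↔ ∀ l, s.repr x l ∈ OInf F := by
  refine ⟨(ω.smulTower (Pi.basisFun K (Fin N))).reindex
    ((Equiv.prodComm _ _).trans finProdFinEquiv), fun x => ?_⟩
  constructor
  · intro hx l
    rw [Basis.repr_reindex_apply, Basis.smulTower_repr, Pi.basisFun_repr]
    exact (hω _).mp (hx _) _
  · intro hx i
    rw [hω]
    intro j
    have := hx (((Equiv.prodComm _ _).trans finProdFinEquiv) (j, i))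
    rw [Basis.repr_reindex_apply, Equiv.symm_apply_apply, Basis.smulTower_repr,
      Pi.basisFun_repr] at this
    exact this

theorem nondeg [FiniteDimensional (RatFunc F) K] [Algebra.IsSeparable (RatFunc F) K] {N M : ℕ}
    (s : Basis (Fin M) (RatFunc F) (Fin N → K)) :
    (LinearMap.BilinForm.toMatrix s (Bf F (1 : Matrix (Fin N) (Fin N) K))).det ≠ 0 := by
  intro h0
  obtain ⟨v, hv, hv0⟩ := Matrix.exists_mulVec_eq_zero_iff.mpr h0
  set y := ∑ j, v j • s j with hy
  have hy0 : y ≠ 0 := by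
    intro hy0
    apply hv
    funext j
    have h1 := congrArg (fun w => s.repr w j) (hy.symm.trans hy0)
    simpa [Finsupp.single_apply] using h1
  have h1 : ∀ i, Bf F (1 : Matrix (Fin N) (Fin N) K) (s i) y = 0 := by
    intro i
    have h2 := congrFun hv0 i
    simp only [Matrix.mulVec, dotProduct, LinearMap.BilinForm.toMatrix_apply,
      Pi.zero_apply] at h2
    rw [hy]
    simp only [map_sum, map_smul, smul_eq_mul]
    rw [← h2]
    refine Finset.sum_congr rfl fun j _ => ?_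
    ring
  have h2 : ∀ x, Bf F (1 : Matrix (Fin N) (Fin N) K) x y = 0 := by
    intro x
    rw [← s.sum_repr x]
    simp only [map_sum, map_smul, LinearMap.sum_apply, LinearMap.smul_apply, h1, smul_zero,
      Finset.sum_const_zero]
  obtain ⟨i, hi⟩ := Function.ne_iff.mp hy0
  obtain ⟨z, hz⟩ := Algebra.trace_surjective (RatFunc F) K (1 : RatFunc F)
  have h3 := h2 (Pi.single i (z / y i))
  rw [Bf_apply, Matrix.one_mulVec, single_dotProduct, div_mul_cancel₀ _ hi, hz] at h3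
  exact one_ne_zero h3

/-- The basis of the lattice at infinity. -/
theorem basisC {N M : ℕ} (s : Basis (Fin M) (RatFunc F) (Fin N → K))
    (gi : Matrix (Fin N) (Fin N) K) (hgi : gi.det ≠ 0) :
    ∃ c : Basis (Fin M) (RatFunc F) (Fin N → K), (∀ j, c j = gi *ᵥ s j) ∧
      ∀ x l, c.repr x l = s.repr (gi⁻¹ *ᵥ x) l := by
  have h1 : (mv F gi) ∘ₗ (mv F gi⁻¹) = LinearMap.id := by
    refine LinearMap.ext fun x => ?_
    rw [LinearMap.comp_apply, mv_apply, mv_apply, Matrix.mulVec_mulVec,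
      Matrix.mul_nonsing_inv _ (isUnit_iff_ne_zero.mpr hgi), Matrix.one_mulVec]
    rfl
  have h2 : (mv F gi⁻¹) ∘ₗ (mv F gi) = LinearMap.id := by
    refine LinearMap.ext fun x => ?_
    rw [LinearMap.comp_apply, mv_apply, mv_apply, Matrix.mulVec_mulVec,
      Matrix.nonsing_inv_mul _ (isUnit_iff_ne_zero.mpr hgi), Matrix.one_mulVec]
    rfl
  refine ⟨s.map (LinearEquiv.ofLinear (mv F gi) (mv F gi⁻¹) h1 h2), fun j => ?_, fun x l => ?_⟩
  · rw [Basis.map_apply]
    rfl
  · rw [Basis.map_repr]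
    rfl

theorem deg_prod {M : ℕ} (d : Fin M → ℤ) :
    (Matrix.diagonal (fun i => (RatFunc.X : RatFunc F) ^ d i)).det ≠ 0 ∧
    (Matrix.diagonal (fun i => (RatFunc.X : RatFunc F) ^ d i)).det.intDegree = ∑ i, d i := by
  rw [Matrix.det_diagonal]
  have h : ∀ S : Finset (Fin M), ∏ i ∈ S, (RatFunc.X : RatFunc F) ^ d i =
      RatFunc.X ^ (∑ i ∈ S, d i) := by
    classical
    intro S
    induction S using Finset.induction_on with
    | empty => simp
    | insert a S ha ih =>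
      rw [Finset.prod_insert ha, Finset.sum_insert ha, ih, zpow_add₀ RatFunc.X_ne_zero]
  rw [h]
  exact ⟨zpow_ne_zero _ RatFunc.X_ne_zero, BIRN2.intDegree_X_zpow _⟩

/-- MINK in the concrete setting. -/
theorem mink [Finite F] [FiniteDimensional (RatFunc F) K] [Algebra.IsSeparable (RatFunc F) K]
    (O : ValuationSubring K) (hO : OnePole F O) (π : K) (hπ0 : π ≠ 0) (hπ : π ∈ O) (a : ℤ)
    (ha : 0 ≤ a) (h1 : algebraMap (RatFunc F) K RatFunc.X * π ^ a ∈ O)
    (h2 : (algebraMap (RatFunc F) K RatFunc.X * π ^ a)⁻¹ ∈ O) : Mink (RR F K) O π := by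
  classical
  intro N
  obtain ⟨ω, hω⟩ := basisO (F := F) O hO
  obtain ⟨s, hs⟩ := basisS O ω hω N
  obtain ⟨δ, hδ, hδ2⟩ := exists_delta F K
  have hnd := nondeg s
  set κ0 := (LinearMap.BilinForm.toMatrix s (Bf F (1 : Matrix (Fin N) (Fin N) K))).det with hκ0
  have hnpos : 0 < finrank (RatFunc F) K := Module.finrank_pos
  refine ⟨a * |((N * finrank (RatFunc F) K : ℕ) : ℤ) * δ.natDegree - κ0.intDegree|, ?_⟩
  intro Λ Γ gi hΓ hE hself hgi hGI
  have hΓdet : Γ.det ≠ 0 := by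
    have := hGI.2.1
    rw [Matrix.det_mul, Matrix.det_mul] at this
    exact right_ne_zero_of_mul (left_ne_zero_of_mul this)
  obtain ⟨e, he, hr⟩ := latbas Λ Γ hΓdet hE (fun y hy x hx => (hself y).mp hy x hx)
  obtain ⟨c, hc1, hc2⟩ := basisC s gi hgi
  set P := c.toMatrix e with hP
  have hPdet : P.det ≠ 0 := by
    have h3 : P * e.toMatrix c = 1 := Basis.toMatrix_mul_toMatrix_flip c e
    have h4 := congrArg Matrix.det h3
    rw [Matrix.det_mul, Matrix.det_one] at h4
    exact left_ne_zero_of_mul_eq_one h4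
  obtain ⟨γ, d, κ, hd, hγ, hκ, hbir⟩ := Pool.HYP.birn F (N * finrank (RatFunc F) K) P hPdet
  -- degrees
  obtain ⟨hB1, hB2⟩ := gramInf O s hs hnd Γ gi hGI c hc1
  have hG : LinearMap.BilinForm.toMatrix e (Bf F Γ) =
      Pᵀ * LinearMap.BilinForm.toMatrix c (Bf F Γ) * P :=
    (LinearMap.BilinForm.toMatrix_mul_basis_toMatrix c e (Bf F Γ)).symm
  have hGd : (LinearMap.BilinForm.toMatrix e (Bf F Γ)).det ≠ 0 := by
    rw [hG, Matrix.det_mul, Matrix.det_mul, Matrix.det_transpose]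
    exact mul_ne_zero (mul_ne_zero hPdet hB1) hPdet
  have hdeg1 : (LinearMap.BilinForm.toMatrix e (Bf F Γ)).det.intDegree =
      2 * P.det.intDegree + κ0.intDegree := by
    rw [hG, Matrix.det_mul, Matrix.det_mul, Matrix.det_transpose,
      RatFunc.intDegree_mul (mul_ne_zero hPdet hB1) hPdet, RatFunc.intDegree_mul hPdet hB1, hB2]
    ring
  have hdeg2 := gramA Λ Γ hself e he hr δ hδ hδ2 hGd
  have hγ0 : (mK γ).det ≠ 0 ∧ (mK γ).det.intDegree = 0 := by
    have h3 : (mK γ).det = algebraMap F[X] (RatFunc F) γ.det := by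
      rw [RingHom.map_det]
      rfl
    rw [h3]
    refine ⟨by simpa using hγ.ne_zero, ?_⟩
    rw [RatFunc.intDegree_polynomial, Polynomial.natDegree_eq_zero_of_isUnit hγ]
    rfl
  have hκ1 : κ.det ≠ 0 := hκ.2.1
  have hκ2 : κ.det.intDegree = 0 := by
    have h3 : κ.det.intDegree ≤ 0 := hκ.2.2.1
    have h4 : (κ.det)⁻¹.intDegree ≤ 0 := hκ.2.2.2
    rw [RatFunc.intDegree_inv] at h4
    omega
  obtain ⟨hX1, hX2⟩ := deg_prod (F := F) d
  have hdeg3 : P.det.intDegree = ∑ i, d i := by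
    have h3 : (P * mK γ).det.intDegree =
        (κ * Matrix.diagonal (fun i => (RatFunc.X : RatFunc F) ^ d i)).det.intDegree := by
      rw [hbir]
    rw [Matrix.det_mul, Matrix.det_mul, RatFunc.intDegree_mul hPdet hγ0.1,
      RatFunc.intDegree_mul hκ1 hX1, hγ0.2, hκ2, hX2] at h3
    omega
  -- the new basis
  let e' : Fin (N * finrank (RatFunc F) K) → (Fin N → K) := fun j => ∑ i, (mK γ) i j • e i
  have he'Λ : ∀ j, e' j ∈ Λ := by
    intro j
    refine Submodule.sum_mem _ fun i _ => ?_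
    exact smul_poly Λ (γ i j) _ (he i)
  have he'li : LinearIndependent (RatFunc F) e' := by
    have h3 : e' = fun j => Matrix.toLin e e (mK γ) (e j) := by
      funext j
      rw [Matrix.toLin_self]
    rw [h3]
    exact e.linearIndependent.map' (Matrix.toLin e e (mK γ))
      (Matrix.ker_toLin_eq_bot e (mK γ) (isUnit_iff_ne_zero.mpr hγ0.1))
  set τ := algebraMap (RatFunc F) K RatFunc.X with hτ
  have hτ0 : τ ≠ 0 := by
    simpa [hτ] using RatFunc.X_ne_zero
  have he'O : ∀ j i, τ ^ (-(d j)) * (gi⁻¹ *ᵥ e' j) i ∈ O := by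
    intro j
    have h3 : ∀ l, c.repr (e' j) l = κ l j * RatFunc.X ^ d j := by
      intro l
      have h4 : c.repr (e' j) l = (P * mK γ) l j := by
        simp only [e', map_sum, map_smul, Finsupp.coe_finsetSum, Finset.sum_apply,
          Finsupp.coe_smul, Pi.smul_apply, smul_eq_mul, Matrix.mul_apply]
        refine Finset.sum_congr rfl fun i _ => ?_
        rw [hP, Basis.toMatrix_apply]
        ring
      rw [h4, hbir, Matrix.mul_diagonal]
    have h4 : ∀ l, s.repr ((RatFunc.X : RatFunc F) ^ (-(d j)) • (gi⁻¹ *ᵥ e' j)) l = κ l j := by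
      intro l
      rw [map_smul, Finsupp.smul_apply, ← hc2, h3, smul_eq_mul, _root_.zpow_neg]
      have : (RatFunc.X : RatFunc F) ^ d j ≠ 0 := zpow_ne_zero _ RatFunc.X_ne_zero
      field_simp
    have h5 := (hs ((RatFunc.X : RatFunc F) ^ (-(d j)) • (gi⁻¹ *ᵥ e' j))).mpr
      (fun l => by rw [h4]; exact hκ.1 l j)
    intro i
    have h6 := h5 i
    rw [Pi.smul_apply, Algebra.smul_def, map_zpow₀] at h6
    exact h6
  -- selection
  obtain ⟨σ, hσ1, hσ2⟩ := sel e' he'li le_rfl N le_rfl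
  let ix : Fin N → Fin (N * finrank (RatFunc F) K) := fun j => finProdFinEquiv (j, ⟨0, hnpos⟩)
  have hix : ∀ j, ((ix j : Fin (N * finrank (RatFunc F) K)) : ℕ) = finrank (RatFunc F) K * j := by
    intro j
    simp [ix, finProdFinEquiv]
  have hle : ∀ j, d (σ j) ≤ d (ix j) := by
    intro j
    apply hd
    rw [Fin.le_def, hix]
    exact hσ2 j
  refine ⟨Matrix.of fun i j => e' (σ j) i, fun j => a * d (ix j), ?_, ?_, ?_, ?_, ?_⟩
  · have h3 : LinearIndependent K (Matrix.of fun i j => e' (σ j) i).col := hσ1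
    rw [Matrix.linearIndependent_cols_iff_isUnit] at h3
    exact ((Matrix.isUnit_iff_isUnit_det _).mp h3).ne_zero
  · intro j
    exact he'Λ (σ j)
  · intro i j hij
    refine mul_le_mul_of_nonneg_left (hd ?_) ha
    rw [Fin.le_def, hix, hix]
    exact Nat.mul_le_mul_left _ hij
  · rw [← Finset.mul_sum]
    refine mul_le_mul_of_nonneg_left ?_ ha
    have h3 := sumle d hd hnpos
    have h4 : 2 * ∑ i, d i ≤ ((N * finrank (RatFunc F) K : ℕ) : ℤ) * δ.natDegree - κ0.intDegree := by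
      rw [hdeg1, hdeg3] at hdeg2
      omega
    set S := ∑ j, d (ix j) with hS
    have h5 : ((finrank (RatFunc F) K : ℕ) : ℤ) * S ≤ ∑ i, d i := h3
    have h6 : ((N * finrank (RatFunc F) K : ℕ) : ℤ) * δ.natDegree - κ0.intDegree ≤
      |((N * finrank (RatFunc F) K : ℕ) : ℤ) * δ.natDegree - κ0.intDegree| := le_abs_self _
    have h7 : 0 ≤ |((N * finrank (RatFunc F) K : ℕ) : ℤ) * δ.natDegree - κ0.intDegree| := abs_nonneg _
    by_cases hS0 : S ≤ 0
    · exact hS0.trans h7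
    · have h8 : (1 : ℤ) ≤ ((finrank (RatFunc F) K : ℕ) : ℤ) := by exact_mod_cast hnpos
      push Not at hS0
      nlinarith
  · intro i j
    have h3 : (gi⁻¹ * Matrix.of fun i j => e' (σ j) i) i j = (gi⁻¹ *ᵥ e' (σ j)) i := rfl
    rw [h3]
    have h4 : (gi⁻¹ *ᵥ e' (σ j)) i * π ^ (a * d (ix j)) =
        (τ ^ (-(d (σ j))) * (gi⁻¹ *ᵥ e' (σ j)) i) * (τ * π ^ a) ^ (d (σ j)) *
          π ^ (a * (d (ix j) - d (σ j))) := by
      rw [mul_zpow, ← _root_.zpow_mul, mul_sub, zpow_sub₀ hπ0, _root_.zpow_neg]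
      have h5 : τ ^ d (σ j) ≠ 0 := zpow_ne_zero _ hτ0
      have h6 : π ^ (a * d (σ j)) ≠ 0 := zpow_ne_zero _ hπ0
      field_simp
    rw [h4]
    refine mul_mem (mul_mem (he'O _ _) ?_) ?_
    · obtain ⟨z, hz | hz⟩ := (d (σ j)).eq_nat_or_neg
      · rw [hz, zpow_natCast]
        exact pow_mem h1 _
      · rw [hz, _root_.zpow_neg, zpow_natCast, ← inv_pow]
        exact pow_mem h2 _
    · have h5 : 0 ≤ a * (d (ix j) - d (σ j)) := mul_nonneg ha (by have := hle j; omega)
      obtain ⟨z, hz⟩ := Int.eq_ofNat_of_zero_le h5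
      rw [hz, zpow_natCast]
      exact pow_mem hπ _

end Asm

end Pool.T1.MKI
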